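import Pool.Agent.BEW.StmtsP
import Pool.Agent.Helper22_BEH.Sca

/-!
# Squad BEW (MP_be01ff_an), row THF: the theorem for thin shells
-/

set_option autoImplicit false

namespace Pool.Agent.BEW.H30

open Set Filter Topology MeasureTheory
open Pool.Agent.BE01 Pool.Agent.BEL Pool.Agent.BEG Pool.Agent.BEH Pool.Agent.BER Pool.Agent.BEW

theorem thf (ths : ThsStmt) (dsc : DscStmt) : ThfStmt := by
  intro d al hd hd3 hal
  obtain ⟨β0, hβ0, H⟩ := ths d al hd hd3 hal
  have hπ := Real.pi_pos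
  have hβ0' : 0 < β0 := by linarith
  refine ⟨Real.pi / β0, by positivity, ?_⟩
  intro r1 r2 a hr1 hr12 hr2 ha
  have hr : 0 < r2 - r1 := by linarith
  have hβ : β0 ≤ Real.pi * r1 / (r2 - r1) := by
    rw [le_div_iff₀ hr]
    have h1 : r2 - r1 ≤ Real.pi / β0 * r1 := by nlinarith
    have h2 : β0 * (r2 - r1) ≤ β0 * (Real.pi / β0 * r1) := mul_le_mul_of_nonneg_left h1 hβ0'.le
    have h3 : β0 * (Real.pi / β0 * r1) = Real.pi * r1 := by field_simp
    linarith
  have hs : 0 < (r2 - r1) / Real.pi := by positivity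
  have hβpos : 0 < Real.pi * r1 / (r2 - r1) := by positivity
  have h4 := dsc d (Real.pi * r1 / (r2 - r1)) (Real.pi * r1 / (r2 - r1) + Real.pi)
    ((r2 - r1) / Real.pi) 1 al hd hβpos (by linarith) hs one_pos hal (H _ hβ)
  have h5 : (r2 - r1) / Real.pi * (Real.pi * r1 / (r2 - r1)) = r1 := by field_simp
  have h6 : (r2 - r1) / Real.pi * (Real.pi * r1 / (r2 - r1) + Real.pi) = r2 := by
    rw [mul_add, h5]
    field_simp
    ring
  rw [h5, h6, one_mul] at h4
  exact Pool.Agent.BEH.H22.rt_scale (Real.rpow_pos_of_pos hs _) ha hal h4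

end Pool.Agent.BEW.H30

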